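import Pool.Agent.Helper34.BIC.Link

/-!
Transversals of spanning sets, in base form. (Problem MP_5165fa_co, Lemma EXT.)
-/

open Set
open scoped Matroid

namespace BIC

variable {α κ : Type*}

/-- one step: as long as less elements were removed than added, an element of `X` can be removed -/
lemma ext_step {M : Matroid α} [M.Finite] {F I J E X : Set α} (hF : M.IsBase F)
    (hIE : I ⊆ M.E) (hd : Disjoint F I) (hJ : J ⊆ I) (hE : E ⊆ F)
    (hX : M.Indep ((F \ X) ∪ I)) (hs : M.Spanning ((F \ E) ∪ J)) (hc : E.ncard < J.ncard) :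
    ∃ e ∈ X ∩ F, e ∉ E ∧ M.Spanning ((F \ insert e E) ∪ J) := by
  have hfin := M.ground_finite
  have hFf : F.Finite := hfin.subset hF.subset_ground
  have hIf : I.Finite := hfin.subset hIE
  have hJf : J.Finite := hIf.subset hJ
  have hdep : ¬ M.Indep ((F \ E) ∪ J) := by
    intro h
    have h1 := rk_indep h
    have h2 := rk_spanning hF hs
    rw [Set.ncard_union_eq (hd.mono sdiff_subset hJ) (hFf.subset sdiff_subset) hJf] at h1
    have h3 := Set.ncard_sdiff_add_ncard_of_subset hE hFf
    omega
  rw [Matroid.not_indep_iff hs.subset_ground] at hdep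
  obtain ⟨C, hC, hCc⟩ := hdep.exists_isCircuit_subset
  have hnot : ¬ C ⊆ (F \ X) ∪ I := fun h => hCc.not_indep (hX.subset h)
  rw [Set.not_subset] at hnot
  obtain ⟨e, heC, he⟩ := hnot
  have he1 := hC heC
  have he2 : e ∉ I := fun h => he (Or.inr h)
  have he3 : e ∈ F \ E := by
    rcases he1 with h | h
    · exact h
    · exact absurd (hJ h) he2
  have he4 : e ∈ X := by
    by_contra h
    exact he (Or.inl ⟨he3.1, h⟩)
  refine ⟨e, ⟨he4, he3.1⟩, he3.2, ?_⟩
  have heq : (F \ insert e E) ∪ J = ((F \ E) ∪ J) \ {e} := by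
    ext z
    simp only [mem_union, mem_sdiff, mem_insert_iff, mem_singleton_iff, not_or]
    constructor
    · rintro (⟨h1, h2, h3⟩ | h)
      · exact ⟨Or.inl ⟨h1, h3⟩, h2⟩
      · exact ⟨Or.inr h, fun hz => he2 (hz ▸ hJ h)⟩
    · rintro ⟨⟨h1, h2⟩ | h, h3⟩
      · exact Or.inl ⟨h1, h3, h2⟩
      · exact Or.inr h
  rw [heq]
  have h1 : e ∈ M.closure (((F \ E) ∪ J) \ {e}) := by
    have h2 := hCc.mem_closure_sdiff_singleton_of_mem heC
    exact M.closure_subset_closure (sdiff_subset_sdiff_left hC) h2
  have hg : ((F \ E) ∪ J) \ {e} ⊆ M.E := sdiff_subset.trans hs.subset_ground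
  rw [Matroid.spanning_iff_closure_eq hg]
  have h3 : (F \ E) ∪ J ⊆ M.closure (((F \ E) ∪ J) \ {e}) := by
    intro z hz
    by_cases hze : z = e
    · rw [hze]; exact h1
    · exact M.subset_closure _ hg ⟨hz, hze⟩
  apply Subset.antisymm (M.closure_subset_ground _)
  rw [← hs.closure_eq]
  exact M.closure_subset_closure_of_subset_closure h3

/-- a transversal -/
lemma ext_trans [Nonempty α] {M : Matroid α} [M.Finite] {F I J : Set α} (hF : M.IsBase F)
    (hIE : I ⊆ M.E) (hd : Disjoint F I) (hJ : J ⊆ I) (X : κ → Set α) (A : Finset κ) :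
    A.card ≤ J.ncard → (∀ a ∈ A, M.Indep ((F \ X a) ∪ I)) →
    ∃ e : κ → α, (∀ a ∈ A, e a ∈ X a ∩ F) ∧ InjOn e A ∧
      M.Spanning ((F \ e '' (A : Set κ)) ∪ J) := by
  classical
  induction A using Finset.induction_on with
  | empty =>
    intro _ _
    obtain ⟨z⟩ := (inferInstance : Nonempty α)
    refine ⟨fun _ => z, by simp, by simp, ?_⟩
    simp only [Finset.coe_empty, image_empty, sdiff_empty]
    exact hF.spanning_of_superset subset_union_left
      (union_subset hF.subset_ground (hJ.trans hIE))
  | insert a A ha ih =>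
    intro hc hX
    rw [Finset.card_insert_of_notMem ha] at hc
    obtain ⟨e, h1, h2, h3⟩ := ih (by omega) (fun b hb => hX b (Finset.mem_insert_of_mem hb))
    have hcard : (e '' (A : Set κ)).ncard = A.card := by
      rw [h2.ncard_image, Set.ncard_coe_finset]
    obtain ⟨z, hz, hzE, hs⟩ := ext_step hF hIE hd hJ (E := e '' (A : Set κ)) (by
      rintro _ ⟨b, hb, rfl⟩
      exact (h1 b hb).2) (hX a (Finset.mem_insert_self _ _)) h3 (by omega)
    have hne : ∀ b ∈ A, b ≠ a := fun b hb h => ha (h ▸ hb)
    have himg : Function.update e a z '' (A : Set κ) = e '' (A : Set κ) := by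
      apply Set.image_congr
      intro b hb
      exact Function.update_of_ne (hne b hb) _ _
    refine ⟨Function.update e a z, ?_, ?_, ?_⟩
    · intro b hb
      rcases Finset.mem_insert.1 hb with rfl | hb
      · rw [Function.update_self]; exact hz
      · rw [Function.update_of_ne (hne b hb)]; exact h1 b hb
    · rw [Finset.coe_insert, Set.injOn_insert (by simpa using ha)]
      refine ⟨?_, ?_⟩
      · intro b hb c hc hbc
        rw [Function.update_of_ne (hne b hb), Function.update_of_ne (hne c hc)] at hbc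
        exact h2 hb hc hbc
      · rw [Function.update_self, himg]
        exact hzE
    · rw [Finset.coe_insert, image_insert_eq, Function.update_self, himg]
      exact hs

/-- the set after the exchange is a base -/
lemma ext_base {M : Matroid α} [M.Finite] {F J E : Set α} (hF : M.IsBase F)
    (hd : Disjoint F J) (hJf : J.Finite) (hE : E ⊆ F) (hs : M.Spanning ((F \ E) ∪ J))
    (hc : E.ncard = J.ncard) : M.IsBase ((F \ E) ∪ J) := by
  have hfin := M.ground_finite
  have hFf : F.Finite := hfin.subset hF.subset_ground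
  obtain ⟨B, hB, hBs⟩ := hs.exists_isBase_subset
  have h1 := hB.ncard_eq_ncard_of_isBase hF
  have h2 : ((F \ E) ∪ J).ncard = (F \ E).ncard + J.ncard :=
    Set.ncard_union_eq (hd.mono_left sdiff_subset) (hFf.subset sdiff_subset) hJf
  have h3 := Set.ncard_sdiff_add_ncard_of_subset hE hFf
  have h4 : B = (F \ E) ∪ J := Set.eq_of_subset_of_ncard_le hBs (by omega)
    ((hFf.subset sdiff_subset).union hJf)
  rw [← h4]
  exact hB

end BIC
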