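import Pool.Agent.Helper34.EXT.Cells
import Pool.Agent.Helper34.EXT.Trans
import Pool.Agent.Helper34.BIC.CoreThm
import Pool.Agent.Helper21.STAR.Star

/-!
Lemma EXT, core: `k` global extension directions of a bicircular grid which survive the removal of
every large square give `U_{k,2k}`. (Problem MP_5165fa_co.)
-/

open Set BIC
open scoped Matroid

namespace BICS

universe u

/-- If `I` is skew to `Y` and `F` is an independent subset of `Y`, then `F ∪ I` is independent. -/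
lemma indep_of_skew {α : Type*} {M : Matroid α} [M.Finite] {F I Y : Set α} {k : ℕ}
    (hF : M.Indep F) (hI : I ⊆ M.E) (hd : Disjoint F I) (hc : I.ncard = k) (hFY : F ⊆ Y)
    (h : rk M (Y ∪ I) = rk M Y + k) : M.Indep (F ∪ I) := by
  have hfin := M.ground_finite
  have hFf : F.Finite := hfin.subset hF.subset_ground
  have hIf : I.Finite := hfin.subset hI
  refine indep_of_rk (union_subset hF.subset_ground hI) ?_
  rw [Set.ncard_union_eq hd hFf hIf, hc]
  have h1 := rk_submod M Y (F ∪ I)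
  have h2 : rk M F ≤ rk M (Y ∩ (F ∪ I)) := rk_mono M (subset_inter hFY subset_union_left)
  have h3 : Y ∪ (F ∪ I) = Y ∪ I := by
    rw [← union_assoc, union_eq_self_of_subset_right hFY]
  rw [h3, h] at h1
  rw [rk_indep hF] at h2
  omega

lemma div_zone {g q l : ℕ} (hg : 0 < g) (h1 : q * g ≤ l) (h2 : l < q * g + g) : l / g = q := by
  have e : q * g + g = (q + 1) * g := by ring
  rw [e] at h2
  have h3 : l / g < q + 1 := (Nat.div_lt_iff_lt_mul hg).2 h2
  have h4 : q ≤ l / g := (Nat.le_div_iff_mul_le hg).2 h1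
  omega

lemma pair_eq {k a i a' i' : ℕ} (hi : i < k) (hi' : i' < k) (h : a * k + i = a' * k + i') :
    a = a' ∧ i = i' := by
  have h1 : (a * k + i) / k = a := by
    rw [mul_comm, Nat.mul_add_div (by omega), Nat.div_eq_of_lt hi, add_zero]
  have h2 : (a' * k + i') / k = a' := by
    rw [mul_comm, Nat.mul_add_div (by omega), Nat.div_eq_of_lt hi', add_zero]
  have h3 : a = a' := by rw [← h1, ← h2, h]
  subst h3
  exact ⟨rfl, by omega⟩

theorem ext_core (k s : ℕ) (hk : 1 ≤ k) : ∃ m, 2 ≤ m ∧ s ≤ m ∧ ∀ {α : Type u} (M : Matroid α) [M.Finite]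
    (T I : Set α) (ends : α → Sym2 (ℕ × ℕ)) (a₀ b₀ : ℕ), Disjoint T I → M.E = T ∪ I →
    Bic M T ends → Grd T ends a₀ b₀ m m → I.ncard = k → rk M (T ∪ I) = rk M T →
    (∀ a b c, s ≤ c → rect a b c c ⊆ rect a₀ b₀ m m →
      rk M ((T \ pl T ends (rect a b c c)) ∪ I) = rk M (T \ pl T ends (rect a b c c)) + k) →
    HasUniformMinor M k := by
  classical
  obtain ⟨h, hh⟩ : ∃ h : ℕ, h = 4 ^ k := ⟨_, rfl⟩
  have hh1 : 1 ≤ h := by rw [hh]; exact Nat.one_le_pow _ _ (by norm_num)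
  obtain ⟨g, hg⟩ : ∃ g : ℕ, g = s + 1 := ⟨_, rfl⟩
  have hg1 : 1 ≤ g := by omega
  obtain ⟨N, hN⟩ : ∃ N : ℕ, N = k * k * g := ⟨_, rfl⟩
  have hN1 : 1 ≤ N := by
    rw [hN]
    exact Nat.mul_pos (Nat.mul_pos hk hk) hg1
  obtain ⟨m, hm⟩ : ∃ m : ℕ, m = 2 * h * N := ⟨_, rfl⟩
  have hm1 : 2 ≤ m := by
    rw [hm]
    calc 2 = 2 * 1 * 1 := by norm_num
      _ ≤ 2 * h * N := Nat.mul_le_mul (Nat.mul_le_mul_left _ hh1) hN1
  have hm0 : 0 < m := by omega
  have hsm : s ≤ m := by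
    rw [hm, hN]
    calc s ≤ 1 * (1 * g) := by omega
      _ ≤ 2 * h * (k * k * g) :=
        Nat.mul_le_mul (by omega) (Nat.mul_le_mul_right _ (Nat.mul_pos hk hk))
  refine ⟨m, hm1, hsm, ?_⟩
  intro α M _ T I ends a₀ b₀ hTI hE hB hG hIc hrk hrob
  have hfin := M.ground_finite
  have hTE : T ⊆ M.E := by rw [hE]; exact subset_union_left
  have hIE : I ⊆ M.E := by rw [hE]; exact subset_union_right
  have hIf : I.Finite := hfin.subset hIE
  have hcard : Fintype.card (Cond k) < 2 * h := by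
    have := card_Cond k
    omega
  -- coordinates
  set V := Fin m × Fin m with hV
  obtain ⟨gm, hgm⟩ : ∃ gm : ℕ × ℕ → V, ∀ p, gm p = vtG hm0 (p.1 - a₀) (p.2 - b₀) :=
    ⟨fun p => vtG hm0 (p.1 - a₀) (p.2 - b₀), fun _ => rfl⟩
  have hU : ∀ e ∈ T, ∀ v ∈ ends e, v ∈ rect a₀ b₀ m m := by
    intro e he v hv
    obtain ⟨p, q, h1, _, h3, h4⟩ := hG.mem e he
    rw [h1] at hv
    rcases Sym2.mem_iff.1 hv with rfl | rfl <;> assumption
  have hgi : InjOn gm (rect a₀ b₀ m m) := by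
    rintro ⟨p1, p2⟩ ⟨h1, h2, h3, h4⟩ ⟨q1, q2⟩ ⟨h5, h6, h7, h8⟩ hpq
    simp only at h1 h2 h3 h4 h5 h6 h7 h8
    rw [hgm, hgm] at hpq
    obtain ⟨h9, h10⟩ := (gridLike_Grid hm0).inj (by simp only; omega) (by simp only; omega)
      (by simp only; omega) (by simp only; omega) hpq
    simp only at h9 h10
    rw [Prod.mk.injEq]
    omega
  have hback : ∀ p : V, gm (a₀ + p.1.1, b₀ + p.2.1) = p := by
    rintro ⟨⟨p1, h1⟩, ⟨p2, h2⟩⟩
    rw [hgm]
    simp only [Nat.add_sub_cancel_left]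
    exact vtG_eq hm0 h1 h2
  have hsurj : ∀ x ∈ (Grid m).edgeSet, ∃ e ∈ T, Sym2.map gm (ends e) = x := by
    intro x
    induction x using Sym2.ind with
    | _ p q =>
      intro hx
      have hx' : gridAdj p q := hx
      have hpr : ∀ p : V, ((a₀ + p.1.1, b₀ + p.2.1) : ℕ × ℕ) ∈ rect a₀ b₀ m m := by
        intro p
        have h1 := p.1.2
        have h2 := p.2.2
        exact ⟨by simp only; omega, by simp only; omega, by simp only; omega, by simp only; omega⟩
      obtain ⟨e, he, hee⟩ := hG.surj (a₀ + p.1.1, b₀ + p.2.1) (a₀ + q.1.1, b₀ + q.2.1) (by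
        unfold adj
        rcases hx' with ⟨h1, h2⟩ | ⟨h1, h2⟩
        · left
          refine ⟨?_, ?_⟩
          · simp only; rw [h1]
          · simp only; omega
        · right
          refine ⟨?_, ?_⟩
          · simp only; rw [h1]
          · simp only; omega) (hpr p) (hpr q)
      refine ⟨e, he, ?_⟩
      rw [hee, Sym2.map_mk, hback, hback]
  have hα : Nonempty α := by
    obtain ⟨e, _, _⟩ := hsurj s((⟨0, hm0⟩, ⟨0, hm0⟩), (⟨0, hm0⟩, ⟨1, by omega⟩)) (by
      rw [SimpleGraph.mem_edgeSet]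
      exact Or.inl ⟨rfl, Or.inl rfl⟩)
    exact ⟨e⟩
  choose! φ hφ using hsurj
  have hB' := hB.mapV hU hgi
  have hGL := gridLike_Grid (n := m) hm0
  obtain ⟨ψ, hψi, hψe, hboard, hbasis⟩ := side_cells (Cond k) hTE hGL hh1 hm hN1 hcard hφ hB'
  set vt := vtG (n := m) hm0 with hvt
  set F := range ψ with hF
  have hFT : F ⊆ T := hbasis.subset
  have hFI : Disjoint F I := hTI.mono_left hFT
  have hFb : M.IsBase F := by
    obtain ⟨B, hBb, hFB⟩ := hbasis.indep.exists_isBase_superset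
    have h1 : rk M F = rk M T := by
      rw [← rk_closure (M := M) F, hbasis.closure_eq_closure, rk_closure]
    have h2 := rk_superset_base hBb hBb.subset_ground
    rw [hE, hrk, ← h1, rk_indep hbasis.indep] at h2
    have h3 : F = B := Set.eq_of_subset_of_ncard_le hFB (by omega) (hfin.subset hBb.subset_ground)
    rw [h3]
    exact hBb
  -- the zones
  obtain ⟨Z, hZ⟩ : ∃ Z : ℕ → ℕ → Set α, ∀ a i x, x ∈ Z a i ↔ ∃ c : ℕ × ℕ,
      (a * k + i) * g ≤ c.1 ∧ c.1 < (a * k + i) * g + g ∧ c.2 < g ∧ x ∈ ψ '' Cell vt h c :=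
    ⟨fun a i => {x | ∃ c : ℕ × ℕ, (a * k + i) * g ≤ c.1 ∧ c.1 < (a * k + i) * g + g ∧ c.2 < g ∧
      x ∈ ψ '' Cell vt h c}, fun _ _ _ => Iff.rfl⟩
  have hzN : ∀ a < k, ∀ i < k, (a * k + i) * g + g ≤ N := by
    intro a ha i hi
    rw [hN]
    have h1 : a * k + i + 1 ≤ k * k := by
      calc a * k + i + 1 ≤ a * k + k := by omega
        _ = (a + 1) * k := by ring
        _ ≤ k * k := Nat.mul_le_mul_right _ ha
    calc (a * k + i) * g + g = (a * k + i + 1) * g := by ring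
      _ ≤ k * k * g := Nat.mul_le_mul_right _ h1
  have hgN : g ≤ N := by
    have := hzN 0 hk 0 hk
    omega
  have hcelldisj := Cell_disj hGL hh1 hm
  have hcellu : ∀ {v : V} {c c' : ℕ × ℕ}, c.1 < N → c.2 < N → c'.1 < N → c'.2 < N →
      v ∈ Cell vt h c → v ∈ Cell vt h c' → c = c' := by
    intro v c c' h1 h2 h3 h4 h5 h6
    by_contra hne
    exact Set.disjoint_left.1 (hcelldisj c c' h1 h2 h3 h4 hne) h5 h6
  have hZind : ∀ a < k, ∀ i < k, M.Indep ((F \ Z a i) ∪ I) := by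
    intro a ha i hi
    have hzb := hzN a ha i hi
    obtain ⟨z, hz⟩ : ∃ z : ℕ, z = (a * k + i) * g := ⟨_, rfl⟩
    rw [← hz] at hzb
    have hsub : rect (a₀ + 2 * h * z) b₀ (2 * h * g) (2 * h * g) ⊆ rect a₀ b₀ m m := by
      have h1 : 2 * h * z + 2 * h * g ≤ m := by
        rw [hm, ← Nat.mul_add]
        exact Nat.mul_le_mul_left _ hzb
      exact rect_sub (by omega) (by omega) (le_refl _) (by omega)
    have hsg : s ≤ 2 * h * g := by
      calc s ≤ 1 * g := by omega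
        _ ≤ 2 * h * g := Nat.mul_le_mul_right _ (by omega)
    have h1 := hrob _ _ _ hsg hsub
    refine indep_of_skew (hbasis.indep.subset sdiff_subset) hIE (hFI.mono_left sdiff_subset) hIc
      ?_ h1
    rintro _ ⟨⟨v, rfl⟩, hv⟩
    refine ⟨hFT ⟨v, rfl⟩, ?_⟩
    rintro ⟨_, p, hp, hpe⟩
    apply hv
    obtain ⟨c, hc1, hc2, hc3, hc4⟩ := cell_nxt hGL hh1 hm
      ⟨0, 0, hm0, hm0, (vtG_eq hm0 hm0 hm0).symm⟩ v
    have h2 : gm p ∈ (s(v, BIC.nxt vt h N v) : Sym2 V) := by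
      rw [← hψe v]
      exact Sym2.mem_map.2 ⟨p, hpe, rfl⟩
    have h3 : gm p ∈ Cell vt h c := by
      rcases Sym2.mem_iff.1 h2 with h4 | h4 <;> rw [h4] <;> assumption
    have h4 : gm p ∈ Cell vt h ((p.1 - a₀) / (2 * h), (p.2 - b₀) / (2 * h)) := by
      rw [hgm]
      exact vt_mem_cell hh1 _ _
    obtain ⟨p1, p2, p3, p4⟩ := hp
    have h5 : z ≤ (p.1 - a₀) / (2 * h) := by
      rw [Nat.le_div_iff_mul_le (by omega), mul_comm]
      omega
    have h6 : (p.1 - a₀) / (2 * h) < z + g := by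
      rw [Nat.div_lt_iff_lt_mul (by omega), mul_comm, Nat.mul_add]
      omega
    have h7 : (p.2 - b₀) / (2 * h) < g := by
      rw [Nat.div_lt_iff_lt_mul (by omega), mul_comm]
      omega
    have h8 := hcellu hc1 hc2 (by simp only; omega) (by simp only; omega) h3 h4
    rw [hZ]
    refine ⟨c, ?_, ?_, ?_, v, hc3, rfl⟩
    · rw [h8, ← hz]; exact h5
    · rw [h8, ← hz]; exact h6
    · rw [h8]; exact h7
  -- first transversals
  have hfirst : ∀ a, ∃ e : ℕ → α, a < k → (∀ i < k, e i ∈ Z a i ∩ F) ∧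
      M.Indep ((F \ e '' ((Finset.range k : Finset ℕ) : Set ℕ)) ∪ I) := by
    intro a
    by_cases ha : a < k
    · obtain ⟨e, h1, h2, h3⟩ := ext_trans hFb hIE hFI (subset_refl I) (fun i => Z a i)
        (Finset.range k) (by rw [Finset.card_range, hIc])
        (fun i hi => hZind a ha i (Finset.mem_range.1 hi))
      refine ⟨e, fun _ => ⟨fun i hi => h1 i (Finset.mem_range.2 hi), ?_⟩⟩
      refine (ext_base hFb hFI hIf ?_ h3 ?_).indep
      · rintro _ ⟨i, hi, rfl⟩
        exact (h1 i hi).2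
      · rw [h2.ncard_image, Set.ncard_coe_finset, Finset.card_range, hIc]
    · obtain ⟨z⟩ := hα
      exact ⟨fun _ => z, fun h => absurd h ha⟩
  choose e he using hfirst
  -- the ports
  obtain ⟨X, hX⟩ : ∃ X : Set α, ∀ x, x ∈ X ↔ ∃ a < k, ∃ i < k, x = e a i :=
    ⟨{x | ∃ a < k, ∃ i < k, x = e a i}, fun _ => Iff.rfl⟩
  have hXcell : ∀ c : ℕ × ℕ, c.1 < N → c.2 < N → (X ∩ ψ '' Cell vt h c).Subsingleton := by
    have key : ∀ c : ℕ × ℕ, c.1 < N → c.2 < N → ∀ a < k, ∀ i < k, e a i ∈ ψ '' Cell vt h c →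
        c.1 / g = a * k + i := by
      rintro c hc1 hc2 a ha i hi ⟨v, hv, hve⟩
      obtain ⟨c', h1, h2, h3, v', hv', hve'⟩ := (hZ a i _).1 (((he a ha).1 i hi).1)
      have h4 : v = v' := hψi (hve.trans hve'.symm)
      have h5 := hzN a ha i hi
      have h6 := hcellu hc1 hc2 (by omega) (by omega) hv (h4 ▸ hv')
      rw [h6]
      exact div_zone hg1 h1 h2
    intro c hc1 hc2
    rintro x ⟨hx, hxc⟩ y ⟨hy, hyc⟩
    obtain ⟨a, ha, i, hi, rfl⟩ := (hX _).1 hx
    obtain ⟨a', ha', i', hi', rfl⟩ := (hX _).1 hy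
    have h1 := key c hc1 hc2 a ha i hi hxc
    have h2 := key c hc1 hc2 a' ha' i' hi' hyc
    obtain ⟨rfl, rfl⟩ := pair_eq hi hi' (h1.symm.trans h2)
    rfl
  have hbd := hboard X hXcell
  -- the strips
  have hstrip : ∀ u : Fin k, (u.1 * k) * g + (k * g - 1) < N := by
    intro u
    have h1 := hzN u.1 u.2 (k - 1) (by omega)
    have h2 : (u.1 * k + (k - 1)) * g = u.1 * k * g + (k - 1) * g := by ring
    have h3 : (k - 1) * g + g = k * g := by
      rw [Nat.sub_mul]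
      have : 1 * g ≤ k * g := Nat.mul_le_mul_right _ hk
      omega
    have h4 : 1 ≤ k * g := Nat.mul_pos hk hg1
    omega
  have hcomb : ∀ u : Fin k, ∃ Q : Finset (ℕ × ℕ), PQ (Cond k) M T
      (fun e => Sym2.map gm (ends e)) ψ X (Cell vt h) Q ∧ Board.Inb N Q ∧
      ∀ c : ℕ × ℕ, c ∈ Q ↔ (u.1 * k) * g ≤ c.1 ∧ c.1 ≤ (u.1 * k) * g + (k * g - 1) ∧
        c.2 ≤ g - 1 := by
    intro u
    have h1 := hbd.comb (l₁ := (u.1 * k) * g) (l₂ := (u.1 * k) * g + (k * g - 1)) (D := g - 1)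
      (by omega) (hstrip u) (by omega) (fun _ => 0)
      (Finset.Icc ((u.1 * k) * g) ((u.1 * k) * g + (k * g - 1))) (by
        intro l hl
        obtain ⟨h2, h3⟩ := Finset.mem_Icc.1 hl
        exact ⟨h2, h3, Nat.zero_le _⟩)
    refine ⟨_, h1.1, h1.2, ?_⟩
    rintro ⟨l, d⟩
    simp only [Finset.mem_union, Finset.mem_product, Finset.mem_Icc, Finset.mem_singleton,
      Finset.mem_biUnion]
    constructor
    · rintro (⟨h2, h3⟩ | ⟨l', h2, rfl, h3⟩)
      · exact ⟨h2.1, h2.2, by omega⟩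
      · exact ⟨h2.1, h2.2, h3.2⟩
    · rintro ⟨h2, h3, h4⟩
      exact Or.inr ⟨l, ⟨h2, h3⟩, rfl, Nat.zero_le _, h4⟩
  choose Q hQ hQN hQm using hcomb
  have hQd : ∀ u u' : Fin k, u ≠ u' → Disjoint (Q u) (Q u') := by
    intro u u' huu
    rw [Finset.disjoint_left]
    intro c hc hc'
    obtain ⟨h1, h2, _⟩ := (hQm u c).1 hc
    obtain ⟨h3, h4, _⟩ := (hQm u' c).1 hc'
    apply huu
    have h5 : 1 ≤ k * g := Nat.mul_pos hk hg1
    have e1 : ∀ v : ℕ, v * k * g = v * (k * g) := fun v => by ring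
    rw [e1] at h1 h2 h3 h4
    have h6 : c.1 / (k * g) = u.1 := div_zone h5 h1 (by omega)
    have h7 : c.1 / (k * g) = u'.1 := div_zone h5 h3 (by omega)
    exact Fin.ext (h6.symm.trans h7)
  -- enumeration of `I`
  obtain ⟨β, hβi, hβI⟩ : ∃ β : ℕ → α, InjOn β {i | i < k} ∧ β '' {i | i < k} = I := by
    have hc : hIf.toFinset.card = k := by
      rw [← Set.ncard_eq_toFinset_card _ hIf, hIc]
    obtain ⟨β⟩ : Nonempty (Fin k ≃ hIf.toFinset) := by
      rw [← Fintype.card_eq, Fintype.card_fin, Fintype.card_coe, hc]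
    obtain ⟨z⟩ := hα
    refine ⟨fun i => if hi : i < k then (β ⟨i, hi⟩ : α) else z, ?_, ?_⟩
    · intro i hi j hj hij
      have hi' : i < k := hi
      have hj' : j < k := hj
      simp only [dif_pos hi', dif_pos hj'] at hij
      have h1 := β.injective (Subtype.ext hij)
      exact Fin.mk.inj_iff.1 h1
    · apply Subset.antisymm
      · rintro _ ⟨i, hi, rfl⟩
        have hi' : i < k := hi
        simp only [dif_pos hi']
        exact (Set.Finite.mem_toFinset hIf).1 (β ⟨i, hi'⟩).2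
      · intro x hx
        obtain ⟨j, hj⟩ := β.surjective ⟨x, (Set.Finite.mem_toFinset hIf).2 hx⟩
        refine ⟨j.1, j.2, ?_⟩
        simp only [dif_pos j.2]
        rw [Fin.eta, hj]
  -- the conditions
  have hcond : ∀ i : Cond k, (∀ y ∈ i.1.1, y < k) ∧ (∀ x ∈ i.1.2, x < k) ∧
      i.1.1.card = i.1.2.card := by
    rintro ⟨⟨A, B⟩, hi⟩
    have h1 := Finset.mem_filter.1 hi
    have h2 := Finset.mem_product.1 h1.1
    refine ⟨fun y hy => ?_, fun x hx => ?_, h1.2⟩
    · exact Finset.mem_range.1 (Finset.mem_powerset.1 h2.1 hy)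
    · exact Finset.mem_range.1 (Finset.mem_powerset.1 h2.2 hx)
  have hJsub : ∀ i : Cond k, β '' ((i.1.2 : Finset ℕ) : Set ℕ) ⊆ I := by
    intro i
    rw [← hβI]
    exact image_mono fun x hx => (hcond i).2.1 x hx
  have hJc : ∀ i : Cond k, (β '' ((i.1.2 : Finset ℕ) : Set ℕ)).ncard = i.1.2.card := by
    intro i
    have h1 : InjOn β ((i.1.2 : Finset ℕ) : Set ℕ) := hβi.mono fun x hx => (hcond i).2.1 x hx
    rw [h1.ncard_image, Set.ncard_coe_finset]
  have hsecond : ∀ i : Cond k, ∃ t : ℕ → α, (∀ a ∈ i.1.1, ∃ j < k, t a = e a j) ∧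
      M.IsBase ((F \ t '' ((i.1.1 : Finset ℕ) : Set ℕ)) ∪ β '' ((i.1.2 : Finset ℕ) : Set ℕ)) := by
    intro i
    obtain ⟨h1, h2, h3⟩ := hcond i
    obtain ⟨t, h4, h5, h6⟩ := ext_trans hFb hIE hFI (hJsub i)
      (fun a => e a '' ((Finset.range k : Finset ℕ) : Set ℕ)) i.1.1 (by rw [hJc i, h3])
      (fun a ha => (he a (h1 a ha)).2)
    refine ⟨t, ?_, ?_⟩
    · intro a ha
      obtain ⟨j, hj, hje⟩ := (h4 a ha).1
      exact ⟨j, Finset.mem_range.1 (Finset.mem_coe.1 hj), hje.symm⟩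
    · refine ext_base hFb (hFI.mono_right (hJsub i)) (hIf.subset (hJsub i)) ?_ h6 ?_
      · rintro _ ⟨a, ha, rfl⟩
        exact (h4 a ha).2
      · rw [h5.ncard_image, Set.ncard_coe_finset, hJc i, h3]
  choose t ht htb using hsecond
  -- merging
  obtain ⟨C, ℓ, hCT, hℓ, hℓi, hm₁⟩ := hbd.side (κ := Fin k) (π := Fin k) id Q hQ hQN hQd
    (fun i => {p | p.1 ∈ i.1.1}) (fun i p => t i p.1)
    (by
      intro i p hp
      obtain ⟨j, hj, hje⟩ := ht i p.1 hp
      refine ⟨(hX _).2 ⟨p.1, p.2, j, hj, hje⟩, ?_⟩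
      obtain ⟨c, h1, h2, h3, h4⟩ := (hZ p.1 j _).1 (((he p.1 p.2).1 j hj).1)
      refine ⟨c, (hQm p c).2 ⟨?_, ?_, by omega⟩, by rw [hje]; exact h4⟩
      · have h5 : (p.1 * k + j) * g = p.1 * k * g + j * g := by ring
        omega
      · have h5 : (p.1 * k + j) * g = p.1 * k * g + j * g := by ring
        have h6 : j * g + g ≤ k * g := by
          calc j * g + g = (j + 1) * g := by ring
            _ ≤ k * g := Nat.mul_le_mul_right _ hj
        omega)
    (fun i => Function.injective_id.injOn) (fun i => β '' ((i.1.2 : Finset ℕ) : Set ℕ))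
    (fun i => (hTI.mono_right (hJsub i)).symm)
    (by
      intro i
      have h1 : (fun p : Fin k => t i p.1) '' {p | p.1 ∈ i.1.1} =
          t i '' ((i.1.1 : Finset ℕ) : Set ℕ) := by
        ext z
        constructor
        · rintro ⟨p, hp, rfl⟩
          exact ⟨p.1, hp, rfl⟩
        · rintro ⟨a, ha, rfl⟩
          exact ⟨⟨a, (hcond i).1 a ha⟩, ha, rfl⟩
      rw [h1, union_comm]
      exact htb i)
  -- the minor
  refine uniform_minor k C (fun i => if hi : i < k then ℓ ⟨i, hi⟩ else Classical.choice hα) β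
    ?_ hβi ?_ ?_ ?_ ?_
  · intro i hi j hj hij
    have hi' : i < k := hi
    have hj' : j < k := hj
    simp only [dif_pos hi', dif_pos hj'] at hij
    exact Fin.mk.inj_iff.1 (hℓi hij)
  · intro i hi j hj hij
    simp only [dif_pos hi] at hij
    refine Set.disjoint_left.1 hTI (hℓ ⟨i, hi⟩).1 ?_
    rw [hij, ← hβI]
    exact ⟨j, hj, rfl⟩
  · intro i hi
    simp only [dif_pos hi]
    exact (hℓ ⟨i, hi⟩).2
  · intro i hi hc
    refine Set.disjoint_left.1 hTI (hCT hc) ?_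
    rw [← hβI]
    exact ⟨i, hi, rfl⟩
  · intro A B hA hB hAB
    have hAc : ((Finset.range k) \ A).card = B.card := by
      have h1 : A ⊆ Finset.range k := fun i hi => Finset.mem_range.2 (hA i hi)
      rw [Finset.card_sdiff_of_subset h1, Finset.card_range]
      omega
    have hmem : (((Finset.range k) \ A, B) : Finset ℕ × Finset ℕ) ∈ condF k := by
      refine Finset.mem_filter.2 ⟨Finset.mem_product.2 ⟨?_, ?_⟩, hAc⟩
      · exact Finset.mem_powerset.2 Finset.sdiff_subset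
      · exact Finset.mem_powerset.2 (fun i hi => Finset.mem_range.2 (hB i hi))
    have h1 := hm₁ ⟨_, hmem⟩
    simp only at h1
    have e1 : ℓ '' {u | u ∉ id '' {p : Fin k | p.1 ∈ Finset.range k \ A}} =
        (fun i => if hi : i < k then ℓ ⟨i, hi⟩ else Classical.choice hα) '' (A : Set ℕ) := by
      ext z
      constructor
      · rintro ⟨u, hu, rfl⟩
        refine ⟨u.1, ?_, by simp only [dif_pos u.2]⟩
        by_contra h2
        apply hu
        rw [image_id]
        exact Finset.mem_sdiff.2 ⟨Finset.mem_range.2 u.2, h2⟩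
      · rintro ⟨i, hi, rfl⟩
        have hi' := hA i hi
        simp only [dif_pos hi']
        refine ⟨⟨i, hi'⟩, ?_, rfl⟩
        rw [image_id]
        intro h2
        exact (Finset.mem_sdiff.1 h2).2 hi
    rw [e1] at h1
    have e2 : β '' (B : Set ℕ) ∪ (C ∪
        (fun i => if hi : i < k then ℓ ⟨i, hi⟩ else Classical.choice hα) '' (A : Set ℕ)) =
        C ∪ ((fun i => if hi : i < k then ℓ ⟨i, hi⟩ else Classical.choice hα) '' (A : Set ℕ) ∪
        β '' (B : Set ℕ)) := by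
      ext z
      simp only [mem_union]
      tauto
    rw [← e2]
    exact h1

end BICS
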