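import Pool.Agent.Helper34.BIC.A2

/-!
The board of a plain grid with explicit cells. (Problem MP_5165fa_co, Lemma EXT.)
-/

open Set
open scoped Matroid

namespace BIC

variable {α : Type*}

theorem side_cells (ι : Type) [Fintype ι] {M : Matroid α} {S : Set α} (hS : S ⊆ M.E)
    {V : Type} [Finite V] {G : SimpleGraph V} {vt : ℕ → ℕ → V} {ap : V}
    {n h N : ℕ} (hG : GridLike n G vt ap) (hh : 1 ≤ h) (hn : n = 2 * h * N) (hN : 1 ≤ N)
    (hι : Fintype.card ι < 2 * h) {φ : Sym2 V → α} {ends : α → Sym2 V}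
    (hφ : ∀ x ∈ G.edgeSet, φ x ∈ S ∧ ends (φ x) = x) (hB : Bic M S ends) :
    ∃ ψ : V → α, Function.Injective ψ ∧ (∀ v, ends (ψ v) = s(v, nxt vt h N v)) ∧
      (∀ X : Set α, (∀ c : ℕ × ℕ, c.1 < N → c.2 < N → (X ∩ ψ '' Cell vt h c).Subsingleton) →
        Board ι M S ends ψ N X (Cell vt h)) ∧ M.IsBasis (range ψ) S := by
  classical
  have hVne : Nonempty V := ⟨ap⟩
  set ψ : V → α := fun v => φ s(v, nxt vt h N v) with hψ
  have hedge : ∀ v, s(v, nxt vt h N v) ∈ G.edgeSet := fun v => adj_nxt hG hh hn v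
  have hends : ∀ v, ψ v ∈ S ∧ ends (ψ v) = s(v, nxt vt h N v) := fun v => hφ _ (hedge v)
  have hpsi : ∀ v, ψ v ∈ S ∧ v ∈ ends (ψ v) := fun v =>
    ⟨(hends v).1, by rw [(hends v).2]; simp⟩
  have hψi : Function.Injective ψ := by
    intro v v' hvv
    have h1 := congrArg ends hvv
    rw [(hends v).2, (hends v').2] at h1
    rcases Sym2.eq_iff.1 h1 with ⟨h2, _⟩ | ⟨h2, h3⟩
    · exact h2
    · exfalso
      apply nxt_nxt hG hh hn hN v'
      rw [← h2, h3]
  have hlad : ∀ y j, y < h * N → j < N → ∀ X : Set α, (X ∩ ψ '' Lad vt h y j).Subsingleton →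
      Mg ι M S ends (Lad vt h y j) (ψ '' Lad vt h y j) (X ∩ ψ '' Lad vt h y j) := by
    intro y j hy hj X hX
    refine Mg.cycle (L := 4 * h) (by omega) (cyc vt h y j) (cyc_per h y j) ?_ rfl hψi.injOn ?_ hX
    · intro s hs t ht hst
      have := (cyc_inj hG hh hn hy hj hy hj hst).2.2
      rwa [Nat.mod_eq_of_lt hs, Nat.mod_eq_of_lt ht] at this
    · intro t
      refine ⟨(hends _).1, ?_⟩
      rw [(hends _).2, nxt_cyc hG hh hn hy hj]
  have hcell : ∀ X : Set α, (∀ c : ℕ × ℕ, c.1 < N → c.2 < N → (X ∩ ψ '' Cell vt h c).Subsingleton) →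
      ∀ c : ℕ × ℕ, c.1 < N → c.2 < N →
      Mg ι M S ends (Cell vt h c) (ψ '' Cell vt h c) (X ∩ ψ '' Cell vt h c) := by
    intro X hX c hc1 hc2
    have hsub : ∀ t < h, Lad vt h (h * c.1 + t) c.2 ⊆ Cell vt h c := by
      intro t ht
      unfold Cell
      exact subset_biUnion_of_mem (u := fun t => Lad vt h (h * c.1 + t) c.2)
        (show t ∈ (Finset.range h : Set ℕ) from Finset.mem_coe.2 (Finset.mem_range.2 ht))
    have hl : ∀ t < h, Mg ι M S ends (Lad vt h (h * c.1 + t) c.2)
        (ψ '' Lad vt h (h * c.1 + t) c.2) (X ∩ ψ '' Lad vt h (h * c.1 + t) c.2) := by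
      intro t ht
      refine hlad _ _ (hY_lt hc1 ht) hc2 X ((hX c hc1 hc2).anti ?_)
      exact inter_subset_inter_right _ (image_mono (hsub t ht))
    have hPQ : ∀ T, 1 ≤ T → T ≤ h →
        PQ ι M S ends ψ X (fun t => Lad vt h (h * c.1 + t) c.2) (Finset.range T) := by
      intro T hT
      induction T, hT using Nat.le_induction with
      | base =>
        intro h1
        unfold PQ
        have : ⋃ t ∈ Finset.range 1, Lad vt h (h * c.1 + t) c.2 = Lad vt h (h * c.1 + 0) c.2 := by
          simp
        rw [this]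
        exact hl 0 (by omega)
      | succ T hT ih =>
        intro h1
        rw [Finset.range_add_one]
        refine PQ.add hB (fun c _ => Set.toFinite _) (ih (by omega)) (c := T) (c' := T - 1)
          (Set.toFinite _) (hl T (by omega)) (Finset.mem_range.2 (by omega)) ?_ ?_
        · intro b hb hbT
          have hb' := Finset.mem_range.1 hb
          refine Lad_disj hG hh hn (hY_lt hc1 (by omega)) hc2 (hY_lt hc1 (by omega)) hc2 ?_
          rintro ⟨e, _⟩
          omega
        · have e : h * c.1 + T = (h * c.1 + (T - 1)) + 1 := by omega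
          rw [e]
          set y := h * c.1 + (T - 1) with hy
          have hyN : y + 1 < h * N := by
            have := hY_lt (h := h) hc1 (show T < h by omega)
            omega
          have hr2 : 2 * (y + 1) + 1 < n := row_lt hn hyN
          refine rung_of hφ hι (fun s => vt (2 * y + 1) (2 * h * c.2 + s))
            (fun s => vt (2 * y + 1 + 1) (2 * h * c.2 + s)) ?_ ?_ ?_ ?_ ?_
          · intro s hs; exact vt_mem_Lad hh (Or.inr rfl) hs
          · intro s hs; exact vt_mem_Lad hh (Or.inl (by ring)) hs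
          · intro s hs; exact hG.adjv (by omega) (col_lt hn hc2 hs)
          · intro s hs s' hs' hss
            have := (hG.inj (by omega) (col_lt hn hc2 hs) (by omega) (col_lt hn hc2 hs') hss).2
            omega
          · intro s hs s' hs' hss
            have := (hG.inj (by omega) (col_lt hn hc2 hs) (by omega) (col_lt hn hc2 hs') hss).1
            omega
    exact hPQ h hh (le_refl _)
  have hrange : ∀ {Y a : ℕ}, Y < N → a < 2 * h → 2 * h * Y + a < n := fun hY ha =>
    col_lt hn hY ha
  refine ⟨ψ, hψi, fun v => (hends v).2, ?_, ?_⟩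
  · intro X hX
    refine ⟨hB, hpsi, fun c => Set.toFinite _, Cell_disj hG hh hn, hcell X hX, ?_, ?_⟩
    · intro l d hl hd
      have e1 : 2 * h * l + (2 * h - 1) + 1 = 2 * h * (l + 1) + 0 := by
        rw [Nat.mul_succ]; omega
      have hlt : 2 * h * (l + 1) + 0 < n := hrange hl (by omega)
      refine rung_of hφ hι (fun s => vt (2 * h * l + (2 * h - 1)) (2 * h * d + s))
        (fun s => vt (2 * h * l + (2 * h - 1) + 1) (2 * h * d + s)) ?_ ?_ ?_ ?_ ?_
      · intro s hs; exact vt_mem_Cell hh (by omega) hs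
      · intro s hs
        rw [e1]
        exact vt_mem_Cell hh (by omega) hs
      · intro s hs
        exact hG.adjv (by omega) (hrange hd hs)
      · intro s hs s' hs' hss
        have := (hG.inj (by omega) (hrange hd hs) (by omega) (hrange hd hs') hss).2
        omega
      · intro s hs s' hs' hss
        have := (hG.inj (by omega) (hrange hd hs) (by omega) (hrange hd hs') hss).1
        omega
    · intro l d hl hd
      have e1 : 2 * h * d + (2 * h - 1) + 1 = 2 * h * (d + 1) + 0 := by
        rw [Nat.mul_succ]; omega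
      have hlt : 2 * h * (d + 1) + 0 < n := hrange hd (by omega)
      refine rung_of hφ hι (fun s => vt (2 * h * l + s) (2 * h * d + (2 * h - 1)))
        (fun s => vt (2 * h * l + s) (2 * h * d + (2 * h - 1) + 1)) ?_ ?_ ?_ ?_ ?_
      · intro s hs; exact vt_mem_Cell hh hs (by omega)
      · intro s hs
        rw [e1]
        exact vt_mem_Cell hh hs (by omega)
      · intro s hs
        exact hG.adjh (hrange hl hs) (by omega)
      · intro s hs s' hs' hss
        have := (hG.inj (hrange hl hs) (by omega) (hrange hl hs') (by omega) hss).1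
        omega
      · intro s hs s' hs' hss
        have := (hG.inj (hrange hl hs) (by omega) (hrange hl hs') (by omega) hss).2
        omega
  · have hsubS : range ψ ⊆ S := by
      rintro _ ⟨v, rfl⟩
      exact (hpsi v).1
    have hfin : (range ψ).Finite := Set.finite_range ψ
    have hind : M.Indep (range ψ) := by
      refine hB.ind (range ψ) (Function.invFun ψ) hsubS ?_ ?_
      · rintro _ ⟨v, rfl⟩ _ ⟨v', rfl⟩ hvv
        rw [Function.leftInverse_invFun hψi v, Function.leftInverse_invFun hψi v'] at hvv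
        rw [hvv]
      · rintro _ ⟨v, rfl⟩
        rw [Function.leftInverse_invFun hψi v]
        exact (hpsi v).2
    refine hind.isBasis_of_eRk_ge hfin hsubS ?_ hS
    rw [hind.eRk_eq_encard]
    have h1 := hB.rk (univ : Set (V))
    have h2 : S ⊆ ins S ends univ := fun e he => ⟨he, fun v _ => mem_univ v⟩
    have h3 : (range ψ).encard = (univ : Set (V)).encard := by
      rw [← image_univ, hψi.injOn.encard_image]
    rw [h3]
    exact (M.eRk_mono h2).trans h1

section cells

variable {V : Type} {vt : ℕ → ℕ → V} {n h N : ℕ} {G : SimpleGraph V} {ap : V}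

/-- if the apex is a grid vertex, every vertex lies in a cell together with its successor -/
lemma cell_nxt (hG : GridLike n G vt ap) (hh : 1 ≤ h) (hn : n = 2 * h * N)
    (hap : ∃ r c, r < n ∧ c < n ∧ ap = vt r c) (v : V) :
    ∃ c : ℕ × ℕ, c.1 < N ∧ c.2 < N ∧ v ∈ Cell vt h c ∧ nxt vt h N v ∈ Cell vt h c := by
  rcases exists_cyc hG hh hn v with ⟨h0, h1⟩ | ⟨y, j, i, hy, hj, hi, rfl⟩
  · exfalso
    obtain ⟨r, c, hr, hc, he⟩ := hap
    apply h1
    rw [h0, he]
    exact onCyc_vt hh hn hr hc
  · refine ⟨(y / h, j), ?_, hj, ?_, ?_⟩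
    · simp only
      rw [Nat.div_lt_iff_lt_mul (by omega), mul_comm]
      exact hy
    · unfold Cell
      refine mem_iUnion₂.2 ⟨y % h, Finset.mem_range.2 (Nat.mod_lt _ (by omega)), ?_⟩
      simp only
      rw [Nat.div_add_mod]
      exact mem_Lad_of_cyc hh
    · rw [nxt_cyc hG hh hn hy hj]
      unfold Cell
      refine mem_iUnion₂.2 ⟨y % h, Finset.mem_range.2 (Nat.mod_lt _ (by omega)), ?_⟩
      simp only
      rw [Nat.div_add_mod]
      exact mem_Lad_of_cyc hh

/-- a grid vertex lies in the cell given by division -/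
lemma vt_mem_cell (hh : 1 ≤ h) (r c : ℕ) :
    vt r c ∈ Cell vt h (r / (2 * h), c / (2 * h)) := by
  have h1 := Nat.div_add_mod r (2 * h)
  have h2 := Nat.div_add_mod c (2 * h)
  have h3 : r % (2 * h) < 2 * h := Nat.mod_lt _ (by omega)
  have h4 : c % (2 * h) < 2 * h := Nat.mod_lt _ (by omega)
  have h5 := vt_mem_Cell (vt := vt) hh (Y := r / (2 * h)) (j := c / (2 * h)) h3 h4
  rw [h1, h2] at h5
  exact h5

end cells

end BIC
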