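import Pool.Agent.Helper34.EXT.Core
import Pool.Agent.Helper21.STAR.ExtRed

/-!
Lemma EXT. (Problem MP_5165fa_co.)
-/

open Set BIC
open scoped Matroid

namespace BICS

universe u

theorem extZero (k : ℕ) (hk : 1 ≤ k) (s : ℕ) : ∃ m, 2 ≤ m ∧ s ≤ m ∧ ExtZero.{u} k s m := by
  obtain ⟨m, hm, hsm, hmain⟩ := ext_core.{u} k s hk
  refine ⟨m, hm, hsm, ?_⟩
  intro α L _ W I ends x y hE hd hI _ hB hG hr hrob
  refine hmain L W I ends x y hd hE hB hG hI (by rw [← hE]; exact hr) ?_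
  intro a b c hc hsub
  have h1 := hrob a b c hc hsub
  have hIf : I.Finite := L.ground_finite.subset (by rw [hE]; exact subset_union_right)
  have h2 := rk_union_le L (X := W \ pl W ends (rect a b c c)) hIf
  omega

/-- **Lemma EXT.** -/
theorem thmExt (k : ℕ) (hk : 1 ≤ k) : ∀ s : ℕ, ∃ m : ℕ, ExtStmt.{u} k s m := by
  intro s
  obtain ⟨m, hm, hsm, h0⟩ := extZero.{u} k hk s
  exact ⟨m, extStmt_of k s m hm hsm h0⟩

end BICS
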